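import Pool.Agent.Y921.DB.GL

/-!
# Change of centre: the power `(1 + x) ^ N` for a nilpotent matrix `N`
-/

set_option autoImplicit false

open PowerSeries Finset.HasAntidiagonal

namespace Pool.Agent.NH19.CC

open Pool.Agent.Y113 Pool.Agent.Y921.DB

variable {L : Type} [Field L] [NumberField L]

/-- the logarithm -/
theorem exists_log : ∃ ℓ : L⟦X⟧, coeff 0 ℓ = 0 ∧ (1 + X) * PowerSeries.derivative L ℓ = 1 ∧
    GFn ℓ := by
  have h1 : SDc (lg 1) := ⟨9, by
    have := SDp.lg 1
    norm_num at this ⊢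
    exact this⟩
  have h2 : GFn (PowerSeries.map (algebraMap ℚ L) (lg 1)) := GFn.of_rat h1
  have h3 := h2.rescale (-1)
  have hc : ∀ m : ℕ, coeff m (PowerSeries.map (algebraMap ℚ L) (lg 1)) = -((m : L)⁻¹) := by
    intro m
    rw [coeff_map, lg, coeff_mk]
    simp
  refine ⟨_, ?_, ?_, h3⟩
  · rw [coeff_mk, hc]
    simp
  · ext m
    have hd : ∀ k, coeff k (PowerSeries.derivative L (PowerSeries.mk fun m => (-1 : L) ^ m *
        coeff m (PowerSeries.map (algebraMap ℚ L) (lg 1)))) = (-1) ^ k := by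
      intro k
      rw [PowerSeries.coeff_derivative, coeff_mk, hc]
      have : ((k + 1 : ℕ) : L) ≠ 0 := by exact_mod_cast Nat.succ_ne_zero k
      push_cast at this ⊢
      rw [pow_succ]
      field_simp
    rw [add_mul, one_mul, map_add, hd]
    rcases m with _ | m
    · rw [coeff_zero_X_mul, coeff_zero_one]
      simp
    · rw [coeff_succ_X_mul, hd, coeff_one, if_neg (by omega), pow_succ]
      ring

theorem exists_uni {n : ℕ} {N : Matrix (Fin n) (Fin n) ℤ} (hN : N ^ n = 0) :
    ∃ U : Fin n → Fin n → L⟦X⟧, (∀ i j, coeff 0 (U i j) = if i = j then 1 else 0) ∧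
      (∀ i j, (1 + X) * PowerSeries.derivative L (U i j) = ∑ l, C (N i l : L) * U l j) ∧
      ∀ i j, GFn (U i j) := by
  rcases n with _ | n
  · exact ⟨fun i => i.elim0, fun i => i.elim0, fun i => i.elim0, fun i => i.elim0⟩
  obtain ⟨ℓ, hℓ0, hℓ1, hℓ⟩ := exists_log (L := L)
  obtain ⟨lam, hlam⟩ : ∃ lam : ℕ → L⟦X⟧, ∀ k, lam k = C (((k.factorial : ℕ) : L)⁻¹) * ℓ ^ k :=
    ⟨_, fun _ => rfl⟩
  have hfact : ∀ k : ℕ, ((k.factorial : ℕ) : L) ≠ 0 := fun k => by
    exact_mod_cast k.factorial_ne_zero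
  have hlam0 : (1 + X) * PowerSeries.derivative L (lam 0) = 0 := by
    rw [hlam]
    simp
  have hlamS : ∀ k, (1 + X) * PowerSeries.derivative L (lam (k + 1)) = lam k := by
    intro k
    rw [hlam, hlam, Derivation.leibniz, Derivation.leibniz_pow]
    have h0 : PowerSeries.derivative L (C ((((k + 1).factorial : ℕ) : L)⁻¹) : L⟦X⟧) = 0 := by
      exact PowerSeries.derivative_C
    rw [h0, smul_zero, add_zero]
    simp only [smul_eq_mul, Nat.add_sub_cancel, nsmul_eq_mul]
    have h1 : (C ((((k + 1).factorial : ℕ) : L)⁻¹) : L⟦X⟧) * ((k + 1 : ℕ) : L⟦X⟧) =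
        C (((k.factorial : ℕ) : L)⁻¹) := by
      have h2 : ((k + 1 : ℕ) : L⟦X⟧) = C ((k + 1 : ℕ) : L) := by simp
      rw [h2, ← map_mul]
      congr 1
      rw [Nat.factorial_succ]
      push_cast
      have h3 : ((k : L) + 1) ≠ 0 := by exact_mod_cast Nat.succ_ne_zero k
      have h4 := hfact k
      field_simp
    calc (1 + X) * (C ((((k + 1).factorial : ℕ) : L)⁻¹) * (((k + 1 : ℕ) : L⟦X⟧) *
          (ℓ ^ k * PowerSeries.derivative L ℓ)))
        = (C ((((k + 1).factorial : ℕ) : L)⁻¹) * ((k + 1 : ℕ) : L⟦X⟧)) * ℓ ^ k *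
          ((1 + X) * PowerSeries.derivative L ℓ) := by ring
      _ = _ := by rw [hℓ1, h1, mul_one]
  have hlamc : ∀ k, coeff 0 (lam k) = if k = 0 then 1 else 0 := by
    intro k
    rw [hlam, coeff_zero_eq_constantCoeff_apply, map_mul, map_pow,
      ← coeff_zero_eq_constantCoeff_apply, ← coeff_zero_eq_constantCoeff_apply, hℓ0]
    rcases k with _ | k
    · simp
    · simp
  have hlamG : ∀ k, GFn (lam k) := by
    intro k
    rw [hlam]
    refine (GFn.const _).mul ?_
    induction k with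
    | zero => rw [pow_zero]; exact GFn.one
    | succ k ih => rw [pow_succ]; exact ih.mul hℓ
  refine ⟨fun i j => ∑ k ∈ Finset.range (n + 1), C (((N ^ k) i j : ℤ) : L) * lam k, ?_, ?_, ?_⟩
  · intro i j
    rw [map_sum]
    have h1 : ∀ k ∈ Finset.range (n + 1), coeff 0 (C (((N ^ k) i j : ℤ) : L) * lam k) =
        if k = 0 then (if i = j then 1 else 0) else 0 := by
      intro k _
      rw [coeff_C_mul, hlamc]
      split_ifs with h1 h2
      · subst h1; subst h2; simp
      · subst h1
        rw [pow_zero, Matrix.one_apply_ne h2]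
        simp
      · rw [mul_zero]
    rw [Finset.sum_congr rfl h1]
    simp
  · intro i j
    rw [map_sum, Finset.mul_sum, Finset.sum_range_succ']
    have h0 : (1 + X) * PowerSeries.derivative L (C (((N ^ 0) i j : ℤ) : L) * lam 0) = 0 := by
      rw [Derivation.leibniz, PowerSeries.derivative_C]
      simp only [smul_eq_mul, mul_zero, add_zero]
      calc (1 + X) * (C (((N ^ 0) i j : ℤ) : L) * PowerSeries.derivative L (lam 0))
          = C (((N ^ 0) i j : ℤ) : L) * ((1 + X) * PowerSeries.derivative L (lam 0)) := by ring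
        _ = 0 := by rw [hlam0, mul_zero]
    rw [h0, add_zero]
    have h1 : ∀ k ∈ Finset.range n, (1 + X) * PowerSeries.derivative L
        (C (((N ^ (k + 1)) i j : ℤ) : L) * lam (k + 1)) = C (((N ^ (k + 1)) i j : ℤ) : L) * lam k := by
      intro k _
      rw [Derivation.leibniz, PowerSeries.derivative_C]
      simp only [smul_eq_mul, mul_zero, add_zero]
      calc (1 + X) * (C (((N ^ (k + 1)) i j : ℤ) : L) * PowerSeries.derivative L (lam (k + 1)))
          = C (((N ^ (k + 1)) i j : ℤ) : L) *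
            ((1 + X) * PowerSeries.derivative L (lam (k + 1))) := by ring
        _ = _ := by rw [hlamS]
    rw [Finset.sum_congr rfl h1]
    have h2 : ∑ k ∈ Finset.range n, C (((N ^ (k + 1)) i j : ℤ) : L) * lam k =
        ∑ k ∈ Finset.range (n + 1), C (((N ^ (k + 1)) i j : ℤ) : L) * lam k := by
      rw [Finset.sum_range_succ, hN]
      simp
    rw [h2]
    have h3 : ∀ k ∈ Finset.range (n + 1), C (((N ^ (k + 1)) i j : ℤ) : L) * lam k =
        ∑ l, C (N i l : L) * (C (((N ^ k) l j : ℤ) : L) * lam k) := by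
      intro k _
      rw [pow_succ', Matrix.mul_apply]
      push_cast
      rw [map_sum, Finset.sum_mul]
      refine Finset.sum_congr rfl fun l _ => ?_
      rw [map_mul, mul_assoc]
    rw [Finset.sum_congr rfl h3, Finset.sum_comm]
    refine Finset.sum_congr rfl fun l _ => ?_
    rw [Finset.mul_sum]
  · intro i j
    exact GFn.sum _ _ fun k _ => (GFn.const _).mul (hlamG k)

end Pool.Agent.NH19.CC
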