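import Pool.Agent.NH19.CC.GB
import Pool.Agent.NH19.CC.Uni

/-!
# Change of centre: the higher derivatives of `x ^ N H`
-/

set_option autoImplicit false

open PowerSeries Finset.HasAntidiagonal

namespace Pool.Agent.NH19.CC

open Pool.Agent.Y113 Pool.Agent.Y921.DB

variable {L : Type} [Field L] [NumberField L]

omit [NumberField L] in
lemma coeff_one_add_X_pow (m b : ℕ) : coeff b ((1 + X : L⟦X⟧) ^ m) = (m.choose b : L) := by
  have h1 : ((1 + X : L⟦X⟧) ^ m) = (((1 + Polynomial.X) ^ m : Polynomial L) : L⟦X⟧) := by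
    simp
  rw [h1, Polynomial.coeff_coe, Polynomial.coeff_one_add_X_pow]

/-- the sequence of the coefficients of `u (1 + x) ^ m` -/
lemma GB.binom {u : L⟦X⟧} (hu : GFn u) :
    GB (fun s => (PowerSeries.mk fun m => coeff s (u * (1 + X) ^ m) : L⟦X⟧)) := by
  obtain ⟨A, hA⟩ := hu
  have hA1 := hA.one_le
  have hA0 : 0 < A := by linarith
  refine ⟨2 * A, fun φ s m => ?_, fun M => ?_⟩
  · rw [coeff_mk, coeff_mul, map_sum]
    refine (norm_sum_le _ _).trans ?_
    refine (Finset.sum_le_sum (g := fun p => A ^ (s + 1) * ((m.choose p.2 : ℕ) : ℝ))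
      fun p hp => ?_).trans ?_
    · rw [Finset.HasAntidiagonal.mem_antidiagonal] at hp
      rw [coeff_one_add_X_pow, map_mul, norm_mul, map_natCast, Complex.norm_natCast]
      exact mul_le_mul_of_nonneg_right
        ((hA.1 φ _).trans (pow_le_pow_right₀ hA1 (by omega))) (Nat.cast_nonneg _)
    · rw [← Finset.mul_sum, ← Finset.Nat.sum_antidiagonal_swap,
        Finset.Nat.sum_antidiagonal_eq_sum_range_succ_mk]
      simp only [Prod.snd_swap]
      have h1 : ∑ b ∈ Finset.range s.succ, ((m.choose b : ℕ) : ℝ) ≤ 2 ^ m := by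
        have h2 : ∑ b ∈ Finset.range s.succ, m.choose b ≤ 2 ^ m := by
          rw [← Nat.sum_range_choose]
          calc ∑ b ∈ Finset.range s.succ, m.choose b ≤
                ∑ b ∈ Finset.range (s.succ + (m + 1)), m.choose b :=
                Finset.sum_le_sum_of_subset (Finset.range_mono (by omega))
            _ = ∑ b ∈ Finset.range (m + 1), m.choose b := by
                symm
                refine Finset.sum_subset (Finset.range_mono (by omega)) fun b _ hb => ?_
                rw [Finset.mem_range, not_lt] at hb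
                exact Nat.choose_eq_zero_of_lt (by omega)
        exact_mod_cast h2
      calc A ^ (s + 1) * ∑ b ∈ Finset.range s.succ, ((m.choose b : ℕ) : ℝ) ≤ A ^ (s + 1) * 2 ^ m :=
            mul_le_mul_of_nonneg_left h1 (by positivity)
        _ ≤ A ^ (s + m + 1) * 2 ^ (s + m + 1) :=
            mul_le_mul (pow_le_pow_right₀ hA1 (by omega))
              (pow_le_pow_right₀ (by norm_num) (by omega)) (by positivity) (by positivity)
        _ = _ := by rw [← mul_pow, mul_comm]
  · obtain ⟨d, hd0, hd, hd'⟩ := hA.2 M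
    refine ⟨d, hd0, hd.trans (pow_le_pow_left₀ hA0.le (by linarith) _), fun s hs m _ => ?_⟩
    rw [coeff_mk, coeff_mul, Finset.mul_sum]
    refine IsIntegral.sum _ fun p hp => ?_
    rw [Finset.HasAntidiagonal.mem_antidiagonal] at hp
    rw [coeff_one_add_X_pow, ← mul_assoc]
    exact (hd' _ (by omega)).mul (Pool.Agent.Y921.DB.isIntegral_natCast _)

variable {n : ℕ}

/-- the coefficient matrix `binom (N + m, s)` -/
noncomputable def Bc (U : Fin n → Fin n → L⟦X⟧) (s m : ℕ) (i j : Fin n) : L :=
  coeff s (U i j * (1 + X) ^ m)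

omit [NumberField L] in
lemma Bc_zero {U : Fin n → Fin n → L⟦X⟧}
    (hU0 : ∀ i j, coeff 0 (U i j) = if i = j then 1 else 0) (m : ℕ) (i j : Fin n) :
    Bc U 0 m i j = if i = j then 1 else 0 := by
  unfold Bc
  rw [coeff_zero_eq_constantCoeff_apply, map_mul, ← coeff_zero_eq_constantCoeff_apply, hU0]
  simp

omit [NumberField L] in
lemma Bc_succ {N : Matrix (Fin n) (Fin n) ℤ} {U : Fin n → Fin n → L⟦X⟧}
    (hU : ∀ i j, (1 + X) * PowerSeries.derivative L (U i j) = ∑ l, C (N i l : L) * U l j)
    (s m : ℕ) (i j : Fin n) :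
    ((s : L) + 1) * Bc U (s + 1) m i j =
      ∑ l, (N i l : L) * Bc U s m l j + ((m : L) - s) * Bc U s m i j := by
  have h1 : (1 + X) * PowerSeries.derivative L (U i j * (1 + X) ^ m) =
      ∑ l, C (N i l : L) * (U l j * (1 + X) ^ m) + (m : L⟦X⟧) * (U i j * (1 + X) ^ m) := by
    have h2 : (1 + X : L⟦X⟧) * PowerSeries.derivative L ((1 + X : L⟦X⟧) ^ m) =
        (m : L⟦X⟧) * (1 + X) ^ m := by
      rw [Derivation.leibniz_pow]
      have h3 : PowerSeries.derivative L (1 + X : L⟦X⟧) = 1 := by
        rw [map_add, PowerSeries.derivative_X]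
        simp
      rw [h3]
      rcases m with _ | m
      · simp
      · simp only [Nat.add_sub_cancel, smul_eq_mul, mul_one, nsmul_eq_mul]
        ring
    rw [Derivation.leibniz]
    simp only [smul_eq_mul]
    calc (1 + X) * (U i j * PowerSeries.derivative L ((1 + X) ^ m) +
          (1 + X) ^ m * PowerSeries.derivative L (U i j))
        = U i j * ((1 + X) * PowerSeries.derivative L ((1 + X) ^ m)) +
          ((1 + X) * PowerSeries.derivative L (U i j)) * (1 + X) ^ m := by ring
      _ = U i j * ((m : L⟦X⟧) * (1 + X) ^ m) + (∑ l, C (N i l : L) * U l j) * (1 + X) ^ m := by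
          rw [h2, hU]
      _ = _ := by
          rw [Finset.sum_mul, add_comm]
          congr 1
          · exact Finset.sum_congr rfl fun l _ => by ring
          · ring
  have h2 := congrArg (coeff s) h1
  rw [add_mul, one_mul, map_add, map_add, map_sum, PowerSeries.coeff_derivative] at h2
  have h3 : coeff s (X * PowerSeries.derivative L (U i j * (1 + X) ^ m)) =
      (s : L) * coeff s (U i j * (1 + X) ^ m) := by
    rcases s with _ | s
    · rw [coeff_zero_X_mul]; simp
    · rw [coeff_succ_X_mul, PowerSeries.coeff_derivative]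
      push_cast
      ring
  have h4 : coeff s ((m : L⟦X⟧) * (U i j * (1 + X) ^ m)) =
      (m : L) * coeff s (U i j * (1 + X) ^ m) := by
    have h5 : (m : L⟦X⟧) = C (m : L) := by simp
    rw [h5, coeff_C_mul]
  rw [h3, h4] at h2
  have h6 : ∑ l, coeff s (C (N i l : L) * (U l j * (1 + X) ^ m)) =
      ∑ l, (N i l : L) * Bc U s m l j :=
    Finset.sum_congr rfl fun l _ => by rw [coeff_C_mul]; rfl
  rw [h6] at h2
  unfold Bc at h2 ⊢
  linear_combination h2

/-- `x ^ s` times the `s`-th divided derivative of `x ^ N H`, multiplied by `x ^ (-N)` -/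
noncomputable def Ec (U H : Fin n → Fin n → L⟦X⟧) (s : ℕ) (i j : Fin n) : L⟦X⟧ :=
  ∑ l, Had (PowerSeries.mk fun m => coeff s (U i l * (1 + X) ^ m)) (H l j)

omit [NumberField L] in
lemma coeff_Ec (U H : Fin n → Fin n → L⟦X⟧) (s m : ℕ) (i j : Fin n) :
    coeff m (Ec U H s i j) = ∑ l, Bc U s m i l * coeff m (H l j) := by
  unfold Ec
  rw [map_sum]
  refine Finset.sum_congr rfl fun l _ => ?_
  rw [coeff_Had, coeff_mk]
  rfl

lemma GB.Ec {U H : Fin n → Fin n → L⟦X⟧} (hU : ∀ i j, GFn (U i j)) (hH : ∀ i j, GFn (H i j))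
    (i j : Fin n) : GB (fun s => Ec U H s i j) :=
  GB.sum _ (fun l s => Had (PowerSeries.mk fun m => coeff s (U i l * (1 + X) ^ m)) (H l j))
    fun l _ => (GB.binom (hU i l)).had (GB.of_GFn (hH l j))

omit [NumberField L] in
lemma Ec_zero {U H : Fin n → Fin n → L⟦X⟧}
    (hU0 : ∀ i j, coeff 0 (U i j) = if i = j then 1 else 0) (i j : Fin n) :
    Ec U H 0 i j = H i j := by
  ext m
  rw [coeff_Ec]
  simp only [Bc_zero hU0]
  simp

omit [NumberField L] in
lemma Ec_succ {N : Matrix (Fin n) (Fin n) ℤ} {U H : Fin n → Fin n → L⟦X⟧}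
    (hU : ∀ i j, (1 + X) * PowerSeries.derivative L (U i j) = ∑ l, C (N i l : L) * U l j)
    (s : ℕ) (i j : Fin n) :
    C ((s : L) + 1) * Ec U H (s + 1) i j = ∑ l, C (N i l : L) * Ec U H s l j -
      C (s : L) * Ec U H s i j + X * PowerSeries.derivative L (Ec U H s i j) := by
  ext m
  rw [coeff_C_mul, map_add (coeff m), map_sub (coeff m), map_sum (coeff m)]
  have h3 : coeff m (X * PowerSeries.derivative L (Ec U H s i j)) =
      (m : L) * coeff m (Ec U H s i j) := by
    rcases m with _ | m
    · rw [coeff_zero_X_mul]; simp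
    · rw [coeff_succ_X_mul, PowerSeries.coeff_derivative]
      push_cast
      ring
  rw [h3]
  have h4 : ∑ l, coeff m (C (N i l : L) * Ec U H s l j) =
      ∑ l, (∑ k, (N i k : L) * Bc U s m k l) * coeff m (H l j) := by
    have h5 : ∀ l, coeff m (C (N i l : L) * Ec U H s l j) =
        ∑ k, (N i l : L) * Bc U s m l k * coeff m (H k j) := by
      intro l
      rw [coeff_C_mul, coeff_Ec, Finset.mul_sum]
      exact Finset.sum_congr rfl fun k _ => by ring
    rw [Finset.sum_congr rfl fun l _ => h5 l, Finset.sum_comm]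
    exact Finset.sum_congr rfl fun l _ => by rw [Finset.sum_mul]
  rw [h4, coeff_C_mul, coeff_Ec, coeff_Ec, Finset.mul_sum, Finset.mul_sum, Finset.mul_sum,
    ← Finset.sum_sub_distrib, ← Finset.sum_add_distrib]
  refine Finset.sum_congr rfl fun l _ => ?_
  have h6 := Bc_succ hU s m i l
  linear_combination (coeff m (H l j)) * h6

end Pool.Agent.NH19.CC
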