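import Pool.Agent.Y921.DB.GL

/-!
# Change of centre: sequences of power series with geometric growth of conjugates and denominators
-/

set_option autoImplicit false

open PowerSeries Finset.HasAntidiagonal

namespace Pool.Agent.NH19.CC

open Pool.Agent.Y113 Pool.Agent.Y921.DB

variable {L : Type} [Field L] [NumberField L]

/-- The conjugates and the common denominators of the coefficients of a sequence of power series
have geometric growth. -/
def GBp (K : ℝ) (f : ℕ → L⟦X⟧) : Prop :=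
  (∀ (φ : L →+* ℂ) (s m : ℕ), ‖φ (coeff m (f s))‖ ≤ K ^ (s + m + 1)) ∧
  ∀ M, ∃ d : ℕ, 0 < d ∧ (d : ℝ) ≤ K ^ (M + 1) ∧
    ∀ s ≤ M, ∀ m ≤ M, IsIntegral ℤ ((d : L) * coeff m (f s))

/-- the same for some constant -/
def GB (f : ℕ → L⟦X⟧) : Prop := ∃ K : ℝ, GBp K f

omit [NumberField L] in
lemma GBp.one_le {K : ℝ} {f : ℕ → L⟦X⟧} (h : GBp K f) : 1 ≤ K := by
  obtain ⟨d, hd0, hd, _⟩ := h.2 0
  have : (1 : ℝ) ≤ d := by exact_mod_cast hd0
  simpa using this.trans hd

omit [NumberField L] in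
lemma GBp.mono {A B : ℝ} {f : ℕ → L⟦X⟧} (h : GBp A f) (hAB : A ≤ B) : GBp B f := by
  have h0 : 0 ≤ A := zero_le_one.trans h.one_le
  refine ⟨fun φ s m => (h.1 φ s m).trans (pow_le_pow_left₀ h0 hAB _), fun m => ?_⟩
  obtain ⟨d, hd0, hd, hd'⟩ := h.2 m
  exact ⟨d, hd0, hd.trans (pow_le_pow_left₀ h0 hAB _), hd'⟩

omit [NumberField L] in
lemma GBp.add {A B : ℝ} {f g : ℕ → L⟦X⟧} (h : GBp A f) (h' : GBp B g) :
    GBp (2 * A * B) (fun s => f s + g s) := by
  have hA := h.one_le
  have hB := h'.one_le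
  have hA0 : 0 < A := by linarith
  have hB0 : 0 < B := by linarith
  refine ⟨fun φ s m => ?_, fun m => ?_⟩
  · rw [map_add, map_add]
    refine (norm_add_le _ _).trans ((add_le_add (h.1 φ s m) (h'.1 φ s m)).trans ?_)
    have e1 : A ^ (s + m + 1) ≤ (A * B) ^ (s + m + 1) := pow_le_pow_left₀ hA0.le (by nlinarith) _
    have e2 : B ^ (s + m + 1) ≤ (A * B) ^ (s + m + 1) := pow_le_pow_left₀ hB0.le (by nlinarith) _
    calc A ^ (s + m + 1) + B ^ (s + m + 1) ≤ 2 * (A * B) ^ (s + m + 1) := by linarith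
      _ ≤ 2 ^ (s + m + 1) * (A * B) ^ (s + m + 1) := by
          refine mul_le_mul_of_nonneg_right ?_ (by positivity)
          exact le_self_pow₀ (by norm_num) (by omega)
      _ = _ := by rw [← mul_pow, mul_assoc]
  · obtain ⟨d, hd0, hd, hd'⟩ := h.2 m
    obtain ⟨e, he0, he, he'⟩ := h'.2 m
    refine ⟨d * e, Nat.mul_pos hd0 he0, ?_, fun s hs j hj => ?_⟩
    · push_cast
      calc (d : ℝ) * e ≤ A ^ (m + 1) * B ^ (m + 1) := mul_le_mul hd he (by positivity) (by positivity)
        _ = (A * B) ^ (m + 1) := by rw [mul_pow]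
        _ ≤ _ := pow_le_pow_left₀ (by positivity) (by nlinarith) _
    · have h1 : ((d * e : ℕ) : L) * coeff j (f s + g s) =
          (e : L) * ((d : L) * coeff j (f s)) + (d : L) * ((e : L) * coeff j (g s)) := by
        rw [map_add]; push_cast; ring
      rw [h1]
      exact ((Pool.Agent.Y921.DB.isIntegral_natCast e).mul (hd' s hs j hj)).add
        ((Pool.Agent.Y921.DB.isIntegral_natCast d).mul (he' s hs j hj))

omit [NumberField L] in
lemma GBp.mul {A B : ℝ} {f g : ℕ → L⟦X⟧} (h : GBp A f) (h' : GBp B g) :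
    GBp (2 * A * B) (fun s => f s * g s) := by
  have hA := h.one_le
  have hB := h'.one_le
  have hA0 : 0 < A := by linarith
  have hB0 : 0 < B := by linarith
  refine ⟨fun φ s m => ?_, fun m => ?_⟩
  · rw [coeff_mul, map_sum]
    refine (norm_sum_le _ _).trans ?_
    refine (Finset.sum_le_card_nsmul _ _ (A ^ (s + m + 1) * B ^ (s + m + 1)) fun p hp => ?_).trans ?_
    · rw [Finset.HasAntidiagonal.mem_antidiagonal] at hp
      rw [map_mul, norm_mul]
      refine mul_le_mul ((h.1 φ _ _).trans (pow_le_pow_right₀ hA (by omega)))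
        ((h'.1 φ _ _).trans (pow_le_pow_right₀ hB (by omega))) (norm_nonneg _) (by positivity)
    · rw [nsmul_eq_mul, Finset.Nat.card_antidiagonal]
      push_cast
      calc ((m : ℝ) + 1) * (A ^ (s + m + 1) * B ^ (s + m + 1)) ≤
            2 ^ (s + m + 1) * (A ^ (s + m + 1) * B ^ (s + m + 1)) := by
            refine mul_le_mul_of_nonneg_right ?_ (by positivity)
            exact (succ_le_two_pow m).trans (pow_le_pow_right₀ (by norm_num) (by omega))
        _ = _ := by rw [← mul_pow, ← mul_pow, mul_assoc]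
  · obtain ⟨d, hd0, hd, hd'⟩ := h.2 m
    obtain ⟨e, he0, he, he'⟩ := h'.2 m
    refine ⟨d * e, Nat.mul_pos hd0 he0, ?_, fun s hs j hj => ?_⟩
    · push_cast
      calc (d : ℝ) * e ≤ A ^ (m + 1) * B ^ (m + 1) := mul_le_mul hd he (by positivity) (by positivity)
        _ = (A * B) ^ (m + 1) := by rw [mul_pow]
        _ ≤ _ := pow_le_pow_left₀ (by positivity) (by nlinarith) _
    · rw [coeff_mul, Finset.mul_sum]
      refine IsIntegral.sum _ fun p hp => ?_
      rw [Finset.HasAntidiagonal.mem_antidiagonal] at hp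
      have h1 : ((d * e : ℕ) : L) * (coeff p.1 (f s) * coeff p.2 (g s)) =
          ((d : L) * coeff p.1 (f s)) * ((e : L) * coeff p.2 (g s)) := by
        push_cast; ring
      rw [h1]
      exact (hd' s hs _ (by omega)).mul (he' s hs _ (by omega))

omit [NumberField L] in
lemma GBp.had {A B : ℝ} {f g : ℕ → L⟦X⟧} (h : GBp A f) (h' : GBp B g) :
    GBp (A * B) (fun s => Had (f s) (g s)) := by
  have hA := h.one_le
  have hB := h'.one_le
  refine ⟨fun φ s m => ?_, fun m => ?_⟩
  · rw [coeff_Had, map_mul, norm_mul, mul_pow]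
    exact mul_le_mul (h.1 φ s m) (h'.1 φ s m) (norm_nonneg _) (by positivity)
  · obtain ⟨d, hd0, hd, hd'⟩ := h.2 m
    obtain ⟨e, he0, he, he'⟩ := h'.2 m
    refine ⟨d * e, Nat.mul_pos hd0 he0, ?_, fun s hs j hj => ?_⟩
    · push_cast
      rw [mul_pow]
      exact mul_le_mul hd he (by positivity) (by positivity)
    · have h1 : ((d * e : ℕ) : L) * coeff j (Had (f s) (g s)) =
          ((d : L) * coeff j (f s)) * ((e : L) * coeff j (g s)) := by
        rw [coeff_Had]; push_cast; ring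
      rw [h1]
      exact (hd' s hs j hj).mul (he' s hs j hj)

omit [NumberField L] in
lemma GB.add {f g : ℕ → L⟦X⟧} (h : GB f) (h' : GB g) : GB (fun s => f s + g s) := by
  obtain ⟨A, hA⟩ := h
  obtain ⟨B, hB⟩ := h'
  exact ⟨_, hA.add hB⟩

omit [NumberField L] in
lemma GB.mul {f g : ℕ → L⟦X⟧} (h : GB f) (h' : GB g) : GB (fun s => f s * g s) := by
  obtain ⟨A, hA⟩ := h
  obtain ⟨B, hB⟩ := h'
  exact ⟨_, hA.mul hB⟩

omit [NumberField L] in
lemma GB.had {f g : ℕ → L⟦X⟧} (h : GB f) (h' : GB g) : GB (fun s => Had (f s) (g s)) := by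
  obtain ⟨A, hA⟩ := h
  obtain ⟨B, hB⟩ := h'
  exact ⟨_, hA.had hB⟩

omit [NumberField L] in
/-- a fixed power series -/
lemma GB.of_GFn {g : L⟦X⟧} (h : GFn g) : GB (fun _ => g) := by
  obtain ⟨A, hA⟩ := h
  have hA1 := hA.one_le
  refine ⟨A, fun φ s m => (hA.1 φ m).trans (pow_le_pow_right₀ hA1 (by omega)), fun M => ?_⟩
  obtain ⟨d, hd0, hd, hd'⟩ := hA.2 M
  exact ⟨d, hd0, hd, fun s _ m hm => hd' m hm⟩

lemma GB.sum {ι : Type*} (S : Finset ι) (F : ι → ℕ → L⟦X⟧) (h : ∀ i ∈ S, GB (F i)) :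
    GB (fun s => ∑ i ∈ S, F i s) := by
  classical
  induction S using Finset.induction_on with
  | empty =>
    simp only [Finset.sum_empty]
    exact GB.of_GFn GFn.zero
  | insert a S ha ih =>
    simp only [Finset.sum_insert ha]
    exact (h a (Finset.mem_insert_self a S)).add (ih fun i hi => h i (Finset.mem_insert_of_mem hi))

/-- the powers of a polynomial -/
lemma GB.pow (T : Polynomial L) : GB (fun s => (T : L⟦X⟧) ^ s) := by
  classical
  -- conjugates
  obtain ⟨K, hK1, hK⟩ : ∃ K : ℝ, 1 ≤ K ∧ ∀ (φ : L →+* ℂ) (j : ℕ),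
      ∑ b ∈ Finset.range j, ‖φ (T.coeff b)‖ ≤ K := by
    refine ⟨max 1 (∑ φ : L →+* ℂ, ∑ b ∈ Finset.range (T.natDegree + 1), ‖φ (T.coeff b)‖),
      le_max_left _ _, fun φ j => ?_⟩
    refine le_trans ?_ (le_max_right _ _)
    have h1 : ∑ b ∈ Finset.range j, ‖φ (T.coeff b)‖ ≤
        ∑ b ∈ Finset.range (T.natDegree + 1), ‖φ (T.coeff b)‖ := by
      rw [← Finset.sum_filter_add_sum_filter_not (Finset.range j) (fun b => b < T.natDegree + 1)]
      have h2 : ∑ b ∈ (Finset.range j).filter (fun b => ¬ b < T.natDegree + 1),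
          ‖φ (T.coeff b)‖ = 0 := by
        refine Finset.sum_eq_zero fun b hb => ?_
        have h3 := (Finset.mem_filter.1 hb).2
        rw [Polynomial.coeff_eq_zero_of_natDegree_lt (by omega), map_zero, norm_zero]
      rw [h2, add_zero]
      refine Finset.sum_le_sum_of_subset_of_nonneg ?_ fun _ _ _ => norm_nonneg _
      intro b hb
      exact Finset.mem_range.2 (Finset.mem_filter.1 hb).2
    refine h1.trans ?_
    exact Finset.single_le_sum (f := fun φ : L →+* ℂ =>
      ∑ b ∈ Finset.range (T.natDegree + 1), ‖φ (T.coeff b)‖)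
      (fun _ _ => Finset.sum_nonneg fun _ _ => norm_nonneg _) (Finset.mem_univ φ)
  have hconj : ∀ (φ : L →+* ℂ) (s m : ℕ), ‖φ (coeff m ((T : L⟦X⟧) ^ s))‖ ≤ K ^ s := by
    intro φ s
    induction s with
    | zero =>
      intro m
      rw [pow_zero, pow_zero, coeff_one]
      split_ifs <;> simp
    | succ s ih =>
      intro m
      rw [pow_succ, coeff_mul, map_sum]
      refine (norm_sum_le _ _).trans ?_
      have h1 : ∀ p ∈ Finset.HasAntidiagonal.antidiagonal m,
          ‖φ (coeff p.1 ((T : L⟦X⟧) ^ s) * coeff p.2 (T : L⟦X⟧))‖ ≤ K ^ s * ‖φ (T.coeff p.2)‖ := by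
        intro p _
        rw [map_mul, norm_mul, Polynomial.coeff_coe]
        exact mul_le_mul_of_nonneg_right (ih _) (norm_nonneg _)
      refine (Finset.sum_le_sum h1).trans ?_
      rw [← Finset.mul_sum, pow_succ]
      refine mul_le_mul_of_nonneg_left ?_ (by positivity)
      rw [← Finset.Nat.sum_antidiagonal_swap, Finset.Nat.sum_antidiagonal_eq_sum_range_succ_mk]
      exact hK φ _
  -- denominators
  obtain ⟨δ, hδ0, hδ⟩ : ∃ δ : ℕ, 0 < δ ∧ ∀ b, IsIntegral ℤ ((δ : L) * T.coeff b) := by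
    choose d hd0 hd using fun b => exists_den (T.coeff b)
    refine ⟨∏ b ∈ Finset.range (T.natDegree + 1), d b, Finset.prod_pos fun b _ => hd0 b,
      fun b => ?_⟩
    by_cases hb : b < T.natDegree + 1
    · rw [← Finset.prod_erase_mul _ _ (Finset.mem_range.2 hb)]
      push_cast
      rw [mul_assoc]
      refine IsIntegral.mul ?_ (hd b)
      have := Pool.Agent.Y921.DB.isIntegral_natCast (L := L)
        (∏ b ∈ (Finset.range (T.natDegree + 1)).erase b, d b)
      push_cast at this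
      exact this
    · rw [Polynomial.coeff_eq_zero_of_natDegree_lt (by omega), mul_zero]
      exact isIntegral_zero
  have hden : ∀ s m : ℕ, IsIntegral ℤ ((δ : L) ^ s * coeff m ((T : L⟦X⟧) ^ s)) := by
    intro s
    induction s with
    | zero =>
      intro m
      rw [pow_zero, pow_zero, one_mul, coeff_one]
      split_ifs
      · exact isIntegral_one
      · exact isIntegral_zero
    | succ s ih =>
      intro m
      rw [pow_succ (T : L⟦X⟧), coeff_mul, Finset.mul_sum]
      refine IsIntegral.sum _ fun p _ => ?_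
      rw [Polynomial.coeff_coe]
      have h1 : (δ : L) ^ (s + 1) * (coeff p.1 ((T : L⟦X⟧) ^ s) * T.coeff p.2) =
          ((δ : L) ^ s * coeff p.1 ((T : L⟦X⟧) ^ s)) * ((δ : L) * T.coeff p.2) := by ring
      rw [h1]
      exact (ih _).mul (hδ _)
  have hδ1 : (1 : ℝ) ≤ δ := by exact_mod_cast hδ0
  refine ⟨K * δ, fun φ s m => (hconj φ s m).trans ?_, fun M => ⟨δ ^ M, by positivity, ?_,
    fun s hs m _ => ?_⟩⟩
  · calc K ^ s ≤ (K * δ) ^ s := pow_le_pow_left₀ (by positivity) (by nlinarith) _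
      _ ≤ (K * δ) ^ (s + m + 1) := pow_le_pow_right₀ (by nlinarith) (by omega)
  · push_cast
    calc (δ : ℝ) ^ M ≤ (K * δ) ^ M := pow_le_pow_left₀ (by positivity) (by nlinarith) _
      _ ≤ (K * δ) ^ (M + 1) := pow_le_pow_right₀ (by nlinarith) (by omega)
  · have h1 : ((δ ^ M : ℕ) : L) * coeff m ((T : L⟦X⟧) ^ s) =
        (δ : L) ^ (M - s) * ((δ : L) ^ s * coeff m ((T : L⟦X⟧) ^ s)) := by
      push_cast
      rw [← mul_assoc, ← pow_add, Nat.sub_add_cancel hs]
    rw [h1]
    exact ((Pool.Agent.Y921.DB.isIntegral_natCast δ).pow _).mul (hden s m)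

end Pool.Agent.NH19.CC
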