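import Pool.Agent.NH19.CC.Sol

/-!
# Change of centre: the solution at the new centre consists of G-functions
-/

set_option autoImplicit false

open PowerSeries Finset.HasAntidiagonal

namespace Pool.Agent.NH19.CC

open Pool.Agent.Y113 Pool.Agent.Y921.DB

variable {L : Type} [Field L] [NumberField L] {n : ℕ}

/-- a common bound for the conjugates and a denominator of a number -/
lemma exists_size (x : L) : ∃ B : ℝ, 1 ≤ B ∧ (∀ φ : L →+* ℂ, ‖φ x‖ ≤ B) ∧
    ∃ d : ℕ, 0 < d ∧ (d : ℝ) ≤ B ∧ IsIntegral ℤ ((d : L) * x) := by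
  obtain ⟨d, hd0, hd⟩ := exists_den x
  refine ⟨max 1 (max (∑ φ : L →+* ℂ, ‖φ x‖) d), le_max_left _ _, fun φ => ?_, d, hd0,
    (le_max_right _ _).trans (le_max_right _ _), hd⟩
  refine le_trans ?_ ((le_max_left _ _).trans (le_max_right _ _))
  exact Finset.single_le_sum (f := fun φ : L →+* ℂ => ‖φ x‖) (fun _ _ => norm_nonneg _)
    (Finset.mem_univ φ)

/-- evaluation of the polynomials -/
theorem GFn.eval {f : ℕ → L⟦X⟧} (hf : GB f) (D : ℕ) (x u : L) :
    GFn (PowerSeries.mk fun s =>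
      (∑ k ∈ Finset.range (s * D + 1), coeff k (f s) * x ^ k) * u ^ s : L⟦X⟧) := by
  obtain ⟨K, hK⟩ := hf
  have hK1 := hK.one_le
  obtain ⟨B, hB1, hB, d, hd0, hdB, hd⟩ := exists_size x
  obtain ⟨B', hB'1, hB', d', hd'0, hd'B, hd'⟩ := exists_size u
  have hK0 : 0 < K := by linarith
  have hB0 : 0 < B := by linarith
  have hB'0 : 0 < B' := by linarith
  obtain ⟨C, hC⟩ : ∃ C : ℝ, C = (K ^ (D + 1) * B ^ D * B') * 2 ^ (D + 1) := ⟨_, rfl⟩
  have hC1 : 1 ≤ K ^ (D + 1) * B ^ D * B' := by
    have h1 : 1 ≤ K ^ (D + 1) := one_le_pow₀ hK1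
    have h2 : 1 ≤ B ^ D := one_le_pow₀ hB1
    exact one_le_mul_of_one_le_of_one_le (one_le_mul_of_one_le_of_one_le h1 h2) hB'1
  refine ⟨C, fun φ s => ?_, fun M => ?_⟩
  · rw [coeff_mk, map_mul, map_sum, map_pow, norm_mul, norm_pow]
    have h1 : ‖∑ k ∈ Finset.range (s * D + 1), φ (coeff k (f s) * x ^ k)‖ ≤
        ((s * D + 1 : ℕ) : ℝ) * (K ^ (s + s * D + 1) * B ^ (s * D)) := by
      refine (norm_sum_le _ _).trans ?_
      refine (Finset.sum_le_card_nsmul _ _ (K ^ (s + s * D + 1) * B ^ (s * D))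
        fun k hk => ?_).trans ?_
      · rw [Finset.mem_range] at hk
        rw [map_mul, map_pow, norm_mul, norm_pow]
        refine mul_le_mul ((hK.1 φ s k).trans (pow_le_pow_right₀ hK1 (by omega))) ?_
          (by positivity) (by positivity)
        exact (pow_le_pow_left₀ (norm_nonneg _) (hB φ) _).trans
          (pow_le_pow_right₀ hB1 (by omega))
      · rw [Finset.card_range, nsmul_eq_mul]
    have h2 : ((s * D + 1 : ℕ) : ℝ) ≤ (2 ^ (D + 1)) ^ (s + 1) := by
      rw [← pow_mul]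
      have h3 : s * D + 1 ≤ 2 ^ ((D + 1) * (s + 1)) := by
        have h4 : s * D + 1 ≤ (D + 1) * (s + 1) := by ring_nf; nlinarith
        exact h4.trans Nat.lt_two_pow_self.le
      exact_mod_cast h3
    calc ‖∑ k ∈ Finset.range (s * D + 1), φ (coeff k (f s) * x ^ k)‖ * ‖φ u‖ ^ s
        ≤ (((s * D + 1 : ℕ) : ℝ) * (K ^ (s + s * D + 1) * B ^ (s * D))) * B' ^ s :=
          mul_le_mul h1 (pow_le_pow_left₀ (norm_nonneg _) (hB' φ) _) (by positivity)
            (by positivity)
      _ ≤ ((2 ^ (D + 1)) ^ (s + 1) * ((K ^ (D + 1)) ^ (s + 1) * (B ^ D) ^ (s + 1))) *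
          B' ^ (s + 1) := by
          refine mul_le_mul (mul_le_mul h2 (mul_le_mul ?_ ?_ (by positivity) (by positivity))
            (by positivity) (by positivity)) (pow_le_pow_right₀ hB'1 (by omega))
            (by positivity) (by positivity)
          · rw [← pow_mul]
            refine pow_le_pow_right₀ hK1 ?_
            ring_nf
            nlinarith
          · rw [← pow_mul]
            refine pow_le_pow_right₀ hB1 ?_
            ring_nf
            nlinarith
      _ = C ^ (s + 1) := by rw [hC, mul_pow, mul_pow, mul_pow]; ring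
  · obtain ⟨e, he0, he, he'⟩ := hK.2 (M * (D + 1))
    refine ⟨e * d ^ (M * D) * d' ^ M, by positivity, ?_, fun s hs => ?_⟩
    · push_cast
      calc (e : ℝ) * (d : ℝ) ^ (M * D) * (d' : ℝ) ^ M
          ≤ K ^ (M * (D + 1) + 1) * B ^ (M * D) * B' ^ M :=
            mul_le_mul (mul_le_mul he (pow_le_pow_left₀ (by positivity) hdB _) (by positivity)
              (by positivity)) (pow_le_pow_left₀ (by positivity) hd'B _) (by positivity)
              (by positivity)
        _ ≤ (K ^ (D + 1)) ^ (M + 1) * (B ^ D) ^ (M + 1) * B' ^ (M + 1) := by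
            refine mul_le_mul (mul_le_mul ?_ ?_ (by positivity) (by positivity))
              (pow_le_pow_right₀ hB'1 (by omega)) (by positivity) (by positivity)
            · rw [← pow_mul]
              refine pow_le_pow_right₀ hK1 ?_
              ring_nf
              nlinarith
            · rw [← pow_mul]
              refine pow_le_pow_right₀ hB1 ?_
              ring_nf
              nlinarith
        _ = (K ^ (D + 1) * B ^ D * B') ^ (M + 1) := by rw [mul_pow, mul_pow]
        _ ≤ C ^ (M + 1) := by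
            refine pow_le_pow_left₀ (by positivity) ?_ _
            rw [hC]
            exact le_mul_of_one_le_right (by positivity) (one_le_pow₀ (by norm_num))
    · rw [coeff_mk]
      have h1 : ((e * d ^ (M * D) * d' ^ M : ℕ) : L) *
          ((∑ k ∈ Finset.range (s * D + 1), coeff k (f s) * x ^ k) * u ^ s) =
          (∑ k ∈ Finset.range (s * D + 1), ((e : L) * coeff k (f s)) *
            ((d : L) ^ (M * D - k) * ((d : L) * x) ^ k)) *
            ((d' : L) ^ (M - s) * ((d' : L) * u) ^ s) := by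
        push_cast
        rw [Finset.sum_mul, Finset.sum_mul, Finset.mul_sum]
        refine Finset.sum_congr rfl fun k hk => ?_
        rw [Finset.mem_range] at hk
        have h2 : k ≤ M * D := by
          have : s * D ≤ M * D := Nat.mul_le_mul_right _ hs
          omega
        have h3 : (d : L) ^ (M * D) = (d : L) ^ (M * D - k) * (d : L) ^ k := by
          rw [← pow_add, Nat.sub_add_cancel h2]
        have h4 : (d' : L) ^ M = (d' : L) ^ (M - s) * (d' : L) ^ s := by
          rw [← pow_add, Nat.sub_add_cancel hs]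
        rw [h3, h4, mul_pow, mul_pow]
        ring
      rw [h1]
      refine (IsIntegral.sum _ fun k hk => ?_).mul
        (((Pool.Agent.Y921.DB.isIntegral_natCast d').pow _).mul (hd'.pow _))
      rw [Finset.mem_range] at hk
      have hsD : s * D ≤ M * D := Nat.mul_le_mul_right _ hs
      have hMD : M * (D + 1) = M * D + M := by ring
      refine (he' s (by omega) k (by omega)).mul
        (((Pool.Agent.Y921.DB.isIntegral_natCast d).pow _).mul (hd.pow _))

omit [NumberField L] in
lemma eval_eq_sum_coe {p : Polynomial L} {m : ℕ} (h : p.natDegree ≤ m) (x : L) :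
    p.eval x = ∑ k ∈ Finset.range (m + 1), coeff k (p : L⟦X⟧) * x ^ k := by
  rw [Polynomial.eval_eq_sum_range' (by omega : p.natDegree < m + 1)]
  exact Finset.sum_congr rfl fun k _ => by rw [Polynomial.coeff_coe]

/-- **The solution at the new centre consists of G-functions.** -/
theorem sol_gfn {N : Matrix (Fin n) (Fin n) ℤ} (hN : N ^ n = 0) {H W : Fin n → Fin n → L⟦X⟧}
    (hWH : ∀ i j, ∑ l, W i l * H l j = if i = j then 1 else 0)
    (hH : ∀ i j, GFn (H i j)) (hW : ∀ i j, GFn (W i j))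
    {T : Polynomial L} {A : Fin n → Fin n → Polynomial L}
    (hode : ∀ i j, (T : L⟦X⟧) * (X * PowerSeries.derivative L (H i j) +
      ∑ l, C (N i l : L) * H l j) = ∑ l, H i l * (A l j : L⟦X⟧))
    {x₀ : L} (hx : (Polynomial.X * T).eval x₀ ≠ 0)
    {Z : Fin n → Fin n → L⟦X⟧} (hZ0 : ∀ i j, coeff 0 (Z i j) = if i = j then 1 else 0)
    (hZ : ∀ i j, tr x₀ (Polynomial.X * T) * PowerSeries.derivative L (Z i j) =
      ∑ l, Z i l * tr x₀ (A l j)) (i j : Fin n) : GFn (Z i j) := by
  obtain ⟨U, hU0, hU1, hU⟩ := exists_uni (L := L) hN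
  obtain ⟨S, hS⟩ : ∃ S : Polynomial L, S = Polynomial.X * T := ⟨_, rfl⟩
  obtain ⟨D, hDS, hDA⟩ : ∃ D : ℕ, S.natDegree ≤ D ∧ ∀ i j, (A i j).natDegree ≤ D := by
    refine ⟨S.natDegree + ∑ i, ∑ j, (A i j).natDegree, by omega, fun i j => ?_⟩
    have h1 : (A i j).natDegree ≤ ∑ j, (A i j).natDegree :=
      Finset.single_le_sum (f := fun j => (A i j).natDegree) (fun _ _ => Nat.zero_le _)
        (Finset.mem_univ j)
    have h2 : ∑ j, (A i j).natDegree ≤ ∑ i, ∑ j, (A i j).natDegree :=
      Finset.single_le_sum (f := fun i => ∑ j, (A i j).natDegree) (fun _ _ => Nat.zero_le _)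
        (Finset.mem_univ i)
    omega
  have hfact : ∀ k : ℕ, ((k.factorial : ℕ) : L) ≠ 0 := fun k => by
    exact_mod_cast k.factorial_ne_zero
  -- the normalised polynomials
  have hP : ∀ s, ∑ l, W i l * ((T : L⟦X⟧) ^ s * Ec U H s l j) =
      C (((s.factorial : ℕ) : L)⁻¹) * (Pi S A s i j : L⟦X⟧) := by
    intro s
    have h1 := H_mul_Pi (A := A) hU0 hU1 hode s
    rw [← hS] at h1
    have h2 : ∑ l, W i l * ((T : L⟦X⟧) ^ s * Ec U H s l j) = C (((s.factorial : ℕ) : L)⁻¹) *
        ∑ l, W i l * ((T : L⟦X⟧) ^ s * (C ((s.factorial : ℕ) : L) * Ec U H s l j)) := by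
      rw [Finset.mul_sum]
      refine Finset.sum_congr rfl fun l _ => ?_
      have h3 : (C (((s.factorial : ℕ) : L)⁻¹) : L⟦X⟧) * C ((s.factorial : ℕ) : L) = 1 := by
        rw [← map_mul, inv_mul_cancel₀ (hfact s), map_one]
      calc W i l * ((T : L⟦X⟧) ^ s * Ec U H s l j)
          = (C (((s.factorial : ℕ) : L)⁻¹) * C ((s.factorial : ℕ) : L)) *
            (W i l * ((T : L⟦X⟧) ^ s * Ec U H s l j)) := by rw [h3, one_mul]
        _ = _ := by ring
    rw [h2]
    congr 1
    have h4 : ∀ l, W i l * ((T : L⟦X⟧) ^ s * (C ((s.factorial : ℕ) : L) * Ec U H s l j)) =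
        ∑ k, W i l * H l k * (Pi S A s k j : L⟦X⟧) := by
      intro l
      rw [← h1 l j, Finset.mul_sum]
      exact Finset.sum_congr rfl fun k _ => by ring
    rw [Finset.sum_congr rfl fun l _ => h4 l, Finset.sum_comm]
    have h5 : ∀ k, ∑ l, W i l * H l k * (Pi S A s k j : L⟦X⟧) =
        (if i = k then 1 else 0) * (Pi S A s k j : L⟦X⟧) := by
      intro k
      rw [← Finset.sum_mul, hWH]
    rw [Finset.sum_congr rfl fun k _ => h5 k]
    simp
  have hGB : GB (fun s => C (((s.factorial : ℕ) : L)⁻¹) * (Pi S A s i j : L⟦X⟧)) := by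
    have h1 : GB (fun s => ∑ l, W i l * ((T : L⟦X⟧) ^ s * Ec U H s l j)) :=
      GB.sum _ (fun l s => W i l * ((T : L⟦X⟧) ^ s * Ec U H s l j)) fun l _ =>
        (GB.of_GFn (hW i l)).mul ((GB.pow T).mul (GB.Ec hU hH l j))
    have h2 : (fun s => ∑ l, W i l * ((T : L⟦X⟧) ^ s * Ec U H s l j)) =
        fun s => C (((s.factorial : ℕ) : L)⁻¹) * (Pi S A s i j : L⟦X⟧) := funext hP
    rwa [h2] at h1
  have h3 := GFn.eval hGB D x₀ (S.eval x₀)⁻¹
  have h4 : Z i j = PowerSeries.mk fun s => (∑ k ∈ Finset.range (s * D + 1),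
      coeff k (C (((s.factorial : ℕ) : L)⁻¹) * (Pi S A s i j : L⟦X⟧)) * x₀ ^ k) *
        (S.eval x₀)⁻¹ ^ s := by
    ext s
    rw [coeff_mk]
    rw [← hS] at hx hZ
    have h5 := coeff_sol x₀ hZ0 hZ s i j
    have h6 : ∑ k ∈ Finset.range (s * D + 1),
        coeff k (C (((s.factorial : ℕ) : L)⁻¹) * (Pi S A s i j : L⟦X⟧)) * x₀ ^ k =
        ((s.factorial : ℕ) : L)⁻¹ * (Pi S A s i j).eval x₀ := by
      rw [eval_eq_sum_coe (natDegree_Pi hDS hDA s i j), Finset.mul_sum]
      refine Finset.sum_congr rfl fun k _ => ?_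
      rw [coeff_C_mul]
      ring
    rw [h6, ← h5, inv_pow]
    have h7 := hfact s
    have h8 : S.eval x₀ ^ s ≠ 0 := pow_ne_zero _ hx
    field_simp
  rw [h4]
  exact h3

end Pool.Agent.NH19.CC
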