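import Pool.Agent.NH19.CC.Es

/-!
# Change of centre: the polynomial matrices of the higher derivatives
-/

set_option autoImplicit false

open PowerSeries

namespace Pool.Agent.NH19.CC

open Pool.Agent.Y113 Pool.Agent.Y921.DB

variable {L : Type} [Field L] [NumberField L] {n : ℕ}

omit [NumberField L] in
lemma coe_sum' {ι : Type*} (s : Finset ι) (f : ι → Polynomial L) :
    ((∑ i ∈ s, f i : Polynomial L) : L⟦X⟧) = ∑ i ∈ s, (f i : L⟦X⟧) :=
  map_sum (Polynomial.coeToPowerSeries.ringHom (R := L)) f s

omit [NumberField L] in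
lemma coe_nat' (s : ℕ) : ((s : Polynomial L) : L⟦X⟧) = C (s : L) := by
  have h1 : ((s : Polynomial L) : L⟦X⟧) = (s : L⟦X⟧) :=
    map_natCast (Polynomial.coeToPowerSeries.ringHom (R := L)) s
  rw [h1, map_natCast]

/-- `S ^ s Y^(s) = Y Pi_s` for the solutions of `S Y' = Y A` -/
noncomputable def Pi (S : Polynomial L) (A : Fin n → Fin n → Polynomial L) :
    ℕ → Fin n → Fin n → Polynomial L
  | 0 => fun i j => if i = j then 1 else 0
  | (s + 1) => fun i j => ∑ l, A i l * Pi S A s l j + S * Polynomial.derivative (Pi S A s i j) -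
      (s : Polynomial L) * Polynomial.derivative S * Pi S A s i j

omit [NumberField L] in
lemma natDegree_Pi {S : Polynomial L} {A : Fin n → Fin n → Polynomial L} {D : ℕ}
    (hS : S.natDegree ≤ D) (hA : ∀ i j, (A i j).natDegree ≤ D) (s : ℕ) :
    ∀ i j, (Pi S A s i j).natDegree ≤ s * D := by
  induction s with
  | zero =>
    intro i j
    simp only [Pi, zero_mul]
    split_ifs <;> simp
  | succ s ih =>
    intro i j
    have e : (s + 1) * D = s * D + D := by ring
    simp only [Pi]
    rw [e]
    refine (Polynomial.natDegree_sub_le _ _).trans (max_le ((Polynomial.natDegree_add_le _ _).trans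
      (max_le ?_ ?_)) ?_)
    · refine Polynomial.natDegree_sum_le_of_forall_le _ _ fun l _ => ?_
      refine Polynomial.natDegree_mul_le.trans ?_
      have := hA i l
      have := ih l j
      omega
    · refine Polynomial.natDegree_mul_le.trans ?_
      have := ih i j
      have := Polynomial.natDegree_derivative_le (Pi S A s i j)
      omega
    · refine Polynomial.natDegree_mul_le.trans ?_
      have h1 : ((s : Polynomial L) * Polynomial.derivative S).natDegree ≤ D := by
        refine Polynomial.natDegree_mul_le.trans ?_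
        have := Polynomial.natDegree_derivative_le S
        rw [Polynomial.natDegree_natCast]
        omega
      have := ih i j
      omega

omit [NumberField L] in
/-- the polynomial matrices in terms of the unipotent normalisation -/
theorem H_mul_Pi {N : Matrix (Fin n) (Fin n) ℤ} {U H : Fin n → Fin n → L⟦X⟧}
    (hU0 : ∀ i j, coeff 0 (U i j) = if i = j then 1 else 0)
    (hU : ∀ i j, (1 + X) * PowerSeries.derivative L (U i j) = ∑ l, C (N i l : L) * U l j)
    {T : Polynomial L} {A : Fin n → Fin n → Polynomial L}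
    (hode : ∀ i j, (T : L⟦X⟧) * (X * PowerSeries.derivative L (H i j) +
      ∑ l, C (N i l : L) * H l j) = ∑ l, H i l * (A l j : L⟦X⟧)) (s : ℕ) :
    ∀ i j, ∑ l, H i l * (Pi (Polynomial.X * T) A s l j : L⟦X⟧) =
      (T : L⟦X⟧) ^ s * (C ((s.factorial : ℕ) : L) * Ec U H s i j) := by
  induction s with
  | zero =>
    intro i j
    rw [Ec_zero hU0]
    simp only [Pi, pow_zero, one_mul, Nat.factorial_zero, Nat.cast_one, map_one]
    rw [Finset.sum_eq_single j]
    · simp
    · intro l _ hl
      rw [if_neg hl]
      simp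
    · intro h
      exact absurd (Finset.mem_univ _) h
  | succ s ih =>
    intro i j
    obtain ⟨S, hS⟩ : ∃ S : Polynomial L, S = Polynomial.X * T := ⟨_, rfl⟩
    rw [← hS] at ih ⊢
    obtain ⟨G, hG⟩ : ∃ G : Fin n → L⟦X⟧, ∀ i, G i = ∑ l, H i l * (Pi S A s l j : L⟦X⟧) :=
      ⟨_, fun _ => rfl⟩
    obtain ⟨E, hE⟩ : ∃ E : Fin n → L⟦X⟧, ∀ i, E i = C ((s.factorial : ℕ) : L) * Ec U H s i j :=
      ⟨_, fun _ => rfl⟩
    have hGE : ∀ i, G i = (T : L⟦X⟧) ^ s * E i := fun i => by rw [hG, ih, hE]
    -- the derivative of `G`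
    have hdG : PowerSeries.derivative L (G i) =
        ∑ l, PowerSeries.derivative L (H i l) * (Pi S A s l j : L⟦X⟧) +
        ∑ l, H i l * PowerSeries.derivative L (Pi S A s l j : L⟦X⟧) := by
      rw [hG, map_sum, ← Finset.sum_add_distrib]
      refine Finset.sum_congr rfl fun l _ => ?_
      rw [Derivation.leibniz]
      simp only [smul_eq_mul]
      ring
    have hSs : (S : L⟦X⟧) = X * (T : L⟦X⟧) := by
      rw [hS, Polynomial.coe_mul, Polynomial.coe_X]
    have hdS : ((Polynomial.derivative S : Polynomial L) : L⟦X⟧) =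
        (T : L⟦X⟧) + X * PowerSeries.derivative L (T : L⟦X⟧) := by
      rw [hS, Polynomial.derivative_mul, Polynomial.derivative_X, one_mul, Polynomial.coe_add,
        Polynomial.coe_mul, Polynomial.coe_X, PowerSeries.derivative_coe]
    -- the left hand side
    have hL : ∑ l, H i l * (Pi S A (s + 1) l j : L⟦X⟧) =
        (T : L⟦X⟧) * X * PowerSeries.derivative L (G i) + (T : L⟦X⟧) * ∑ l, C (N i l : L) * G l -
          C (s : L) * ((T : L⟦X⟧) + X * PowerSeries.derivative L (T : L⟦X⟧)) * G i := by
      have e1 : ∀ l, H i l * (Pi S A (s + 1) l j : L⟦X⟧) =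
          (∑ k, H i l * (A l k : L⟦X⟧) * (Pi S A s k j : L⟦X⟧)) +
          (T : L⟦X⟧) * X * (H i l * PowerSeries.derivative L (Pi S A s l j : L⟦X⟧)) -
          C (s : L) * ((T : L⟦X⟧) + X * PowerSeries.derivative L (T : L⟦X⟧)) *
            (H i l * (Pi S A s l j : L⟦X⟧)) := by
        intro l
        have e2 : (Pi S A (s + 1) l j : L⟦X⟧) = ∑ k, (A l k : L⟦X⟧) * (Pi S A s k j : L⟦X⟧) +
            (S : L⟦X⟧) * ((Polynomial.derivative (Pi S A s l j) : Polynomial L) : L⟦X⟧) -
            C (s : L) * ((Polynomial.derivative S : Polynomial L) : L⟦X⟧) *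
              (Pi S A s l j : L⟦X⟧) := by
          simp only [Pi]
          rw [Polynomial.coe_sub, Polynomial.coe_add, Polynomial.coe_mul, Polynomial.coe_mul,
            Polynomial.coe_mul, coe_nat', coe_sum']
          simp only [Polynomial.coe_mul]
        rw [e2, hdS, hSs]
        simp only [PowerSeries.derivative_coe]
        have e3 : (∑ k, H i l * (A l k : L⟦X⟧) * (Pi S A s k j : L⟦X⟧)) =
            H i l * ∑ k, (A l k : L⟦X⟧) * (Pi S A s k j : L⟦X⟧) := by
          rw [Finset.mul_sum]
          exact Finset.sum_congr rfl fun k _ => by ring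
        rw [e3]
        ring
      rw [Finset.sum_congr rfl fun l _ => e1 l, Finset.sum_sub_distrib, Finset.sum_add_distrib,
        ← Finset.mul_sum, ← Finset.mul_sum, ← hG, Finset.sum_comm]
      have e4 : ∀ k, ∑ l, H i l * (A l k : L⟦X⟧) * (Pi S A s k j : L⟦X⟧) =
          (T : L⟦X⟧) * X * (PowerSeries.derivative L (H i k) * (Pi S A s k j : L⟦X⟧)) +
          (T : L⟦X⟧) * ∑ l, C (N i l : L) * (H l k * (Pi S A s k j : L⟦X⟧)) := by
        intro k
        rw [← Finset.sum_mul, ← hode]
        have e5 : ∑ l, C (N i l : L) * (H l k * (Pi S A s k j : L⟦X⟧)) =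
            (∑ l, C (N i l : L) * H l k) * (Pi S A s k j : L⟦X⟧) := by
          rw [Finset.sum_mul]
          exact Finset.sum_congr rfl fun l _ => by ring
        rw [e5]
        ring
      rw [Finset.sum_congr rfl fun k _ => e4 k, Finset.sum_add_distrib, ← Finset.mul_sum,
        ← Finset.mul_sum, hdG, Finset.sum_comm]
      have e6 : ∑ l, ∑ k, C (N i l : L) * (H l k * (Pi S A s k j : L⟦X⟧)) =
          ∑ l, C (N i l : L) * G l := by
        refine Finset.sum_congr rfl fun l _ => ?_
        rw [hG, Finset.mul_sum]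
      rw [e6]
      ring
    have hN : ∑ l, C (N i l : L) * G l = (T : L⟦X⟧) ^ s * ∑ l, C (N i l : L) * E l := by
      rw [Finset.mul_sum]
      exact Finset.sum_congr rfl fun l _ => by rw [hGE]; ring
    have hdG2 : X * PowerSeries.derivative L (G i) * (T : L⟦X⟧) =
        C (s : L) * X * (T : L⟦X⟧) ^ s * PowerSeries.derivative L (T : L⟦X⟧) * E i +
          (T : L⟦X⟧) ^ (s + 1) * (X * PowerSeries.derivative L (E i)) := by
      rw [hGE, Derivation.leibniz, Derivation.leibniz_pow]
      simp only [smul_eq_mul, nsmul_eq_mul]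
      have hc : (s : L⟦X⟧) = C (s : L) := by simp
      rw [hc]
      rcases s with _ | s
      · simp
        ring
      · simp only [Nat.add_sub_cancel]
        ring
    have hEs : C (((s + 1).factorial : ℕ) : L) * Ec U H (s + 1) i j =
        ∑ l, C (N i l : L) * E l - C (s : L) * E i + X * PowerSeries.derivative L (E i) := by
      have h1 := Ec_succ (H := H) hU s i j
      have h2 : PowerSeries.derivative L (E i) =
          C ((s.factorial : ℕ) : L) * PowerSeries.derivative L (Ec U H s i j) := by
        rw [hE, Derivation.leibniz, PowerSeries.derivative_C]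
        simp
      have h3 : ∑ l, C (N i l : L) * E l =
          C ((s.factorial : ℕ) : L) * ∑ l, C (N i l : L) * Ec U H s l j := by
        rw [Finset.mul_sum]
        exact Finset.sum_congr rfl fun l _ => by rw [hE]; ring
      rw [h2, h3, hE]
      have h4 : C (((s + 1).factorial : ℕ) : L) = C ((s.factorial : ℕ) : L) * C ((s : L) + 1) := by
        rw [← map_mul, Nat.factorial_succ]
        congr 1
        push_cast
        ring
      rw [h4]
      linear_combination (C ((s.factorial : ℕ) : L)) * h1
    rw [hL, hEs, hN]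
    linear_combination hdG2 -
      C (s : L) * ((T : L⟦X⟧) + X * PowerSeries.derivative L (T : L⟦X⟧)) * hGE i

end Pool.Agent.NH19.CC
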