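import Pool.Agent.NH25.DL.Fam
import Pool.Agent.NH19.CC.Gfn

/-!
# Change of centre for families of G-functions
-/

set_option autoImplicit false

open PowerSeries Module
open scoped Matrix

namespace Pool.Agent.NH19.CC

open Pool.Agent.Y113 Pool.Agent.Y921.DB Pool.Agent.NH25.DL

variable {L : Type} [Field L] [NumberField L] {n : ℕ}

omit [NumberField L] in
/-- the derivative of the product of two matrices of power series -/
lemma map_derivative_mul (P Q : Matrix (Fin n) (Fin n) L⟦X⟧) :
    (P * Q).map (PowerSeries.derivative L) =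
      P.map (PowerSeries.derivative L) * Q + P * Q.map (PowerSeries.derivative L) := by
  ext1 i j
  rw [Matrix.map_apply, Matrix.mul_apply, map_sum, Matrix.add_apply, Matrix.mul_apply,
    Matrix.mul_apply, ← Finset.sum_add_distrib]
  refine Finset.sum_congr rfl fun l _ => ?_
  rw [Derivation.leibniz, Matrix.map_apply, Matrix.map_apply]
  simp only [smul_eq_mul]
  ring

omit [NumberField L] in
/-- the system of the inverse matrix -/
lemma inv_ode {N : Matrix (Fin n) (Fin n) ℤ} {H W : Matrix (Fin n) (Fin n) L⟦X⟧} (hHW : H * W = 1)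
    {T : Polynomial L} {A : Fin n → Fin n → Polynomial L}
    (hode : ∀ i j, (T : L⟦X⟧) * (X * PowerSeries.derivative L (H i j) +
      ∑ l, C (N i l : L) * H l j) = ∑ l, H i l * (A l j : L⟦X⟧)) (i j : Fin n) :
    (T : L⟦X⟧) * (X * PowerSeries.derivative L (Wᵀ i j) +
      ∑ l, C ((-Nᵀ) i l : L) * Wᵀ l j) = ∑ l, Wᵀ i l * ((-(A j l) : Polynomial L) : L⟦X⟧) := by
  have hWH : W * H = 1 := mul_eq_one_comm.1 hHW
  obtain ⟨Am, hAm⟩ : ∃ Am : Matrix (Fin n) (Fin n) L⟦X⟧, ∀ i j, Am i j = (A i j : L⟦X⟧) :=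
    ⟨Matrix.of fun i j => (A i j : L⟦X⟧), fun _ _ => rfl⟩
  obtain ⟨Nm, hNm⟩ : ∃ Nm : Matrix (Fin n) (Fin n) L⟦X⟧, ∀ i j, Nm i j = C (N i j : L) :=
    ⟨Matrix.of fun i j => C (N i j : L), fun _ _ => rfl⟩
  obtain ⟨dH, hdH⟩ : ∃ dH, dH = H.map (PowerSeries.derivative L) := ⟨_, rfl⟩
  obtain ⟨dW, hdW⟩ : ∃ dW, dW = W.map (PowerSeries.derivative L) := ⟨_, rfl⟩
  have h1 : (T : L⟦X⟧) • ((X : L⟦X⟧) • dH + Nm * H) = H * Am := by
    ext1 i j
    rw [Matrix.smul_apply, Matrix.add_apply, Matrix.smul_apply, Matrix.mul_apply,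
      Matrix.mul_apply, hdH, Matrix.map_apply]
    simp only [smul_eq_mul, hAm, hNm]
    exact hode i j
  have h2 : dH * W + H * dW = 0 := by
    rw [hdH, hdW, ← map_derivative_mul, hHW]
    ext1 i j
    rw [Matrix.map_apply, Matrix.one_apply]
    split_ifs
    · simp
    · simp
  have h3 : dW = -(W * (dH * W)) := by
    have h4 : W * (dH * W + H * dW) = 0 := by rw [h2, mul_zero]
    rw [mul_add, ← mul_assoc W H, hWH, one_mul] at h4
    exact (neg_eq_of_add_eq_zero_right h4).symm
  have h5 : (T : L⟦X⟧) • ((X : L⟦X⟧) • dW - W * Nm) = -(Am * W) := by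
    have h6 : W * ((T : L⟦X⟧) • ((X : L⟦X⟧) • dH + Nm * H)) * W = Am * W := by
      rw [h1, ← mul_assoc, hWH, one_mul]
    rw [← h6, h3]
    simp only [smul_add, smul_sub, smul_neg, mul_add, add_mul, Matrix.mul_smul, Matrix.smul_mul,
      mul_assoc, hHW, mul_one]
    abel
  have h7 := congrFun (congrFun h5 j) i
  rw [Matrix.smul_apply, Matrix.sub_apply, Matrix.smul_apply, Matrix.mul_apply, Matrix.neg_apply,
    Matrix.mul_apply, hdW, Matrix.map_apply] at h7
  simp only [smul_eq_mul, hAm, hNm] at h7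
  rw [Matrix.transpose_apply]
  have h8 : ∑ l, C ((-Nᵀ) i l : L) * Wᵀ l j = -∑ l, W j l * C (N l i : L) := by
    rw [← Finset.sum_neg_distrib]
    refine Finset.sum_congr rfl fun l _ => ?_
    rw [Matrix.neg_apply, Matrix.transpose_apply, Matrix.transpose_apply]
    push_cast
    rw [map_neg]
    ring
  have h9 : ∑ l, Wᵀ i l * ((-(A j l) : Polynomial L) : L⟦X⟧) =
      -∑ l, (A j l : L⟦X⟧) * W l i := by
    rw [← Finset.sum_neg_distrib]
    refine Finset.sum_congr rfl fun l _ => ?_
    rw [Matrix.transpose_apply, Polynomial.coe_neg]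
    ring
  rw [h8, h9, ← h7]
  ring

omit [NumberField L] in
/-- a power series with derivative zero is constant -/
lemma eq_of_derivative_zero [CharZero L] {f : L⟦X⟧} (h : PowerSeries.derivative L f = 0) :
    f = C (coeff 0 f) := by
  ext m
  rcases m with _ | m
  · simp
  · have h1 := congrArg (coeff m) h
    rw [PowerSeries.coeff_derivative, map_zero] at h1
    have h2 : ((m : L) + 1) ≠ 0 := by exact_mod_cast Nat.succ_ne_zero m
    rw [coeff_C, if_neg (by omega)]
    exact (mul_eq_zero.1 h1).resolve_right h2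

/-- **Change of centre.** -/
theorem shift {N : Matrix (Fin n) (Fin n) ℤ} {H : Matrix (Fin n) (Fin n) L⟦X⟧} (h : LFam N H)
    {T : Polynomial L} {A : Fin n → Fin n → Polynomial L} (_hT0 : T.coeff 0 ≠ 0)
    (hode : ∀ i j, (T : L⟦X⟧) * (X * PowerSeries.derivative L (H i j) +
      ∑ l, C (N i l : L) * H l j) = ∑ l, H i l * (A l j : L⟦X⟧))
    {x₀ : L} (hx : x₀ ≠ 0) (hTx : T.eval x₀ ≠ 0) :
    ∃ Z : Matrix (Fin n) (Fin n) L⟦X⟧, LFam (0 : Matrix (Fin n) (Fin n) ℤ) Z ∧
      ∀ i j, (((T.comp (Polynomial.X + Polynomial.C x₀)) *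
        (Polynomial.X + Polynomial.C x₀) : Polynomial L) : L⟦X⟧) *
          PowerSeries.derivative L (Z i j) =
        ∑ l, Z i l * (((A l j).comp (Polynomial.X + Polynomial.C x₀) : Polynomial L) : L⟦X⟧) := by
  classical
  obtain ⟨W, hHW, hW⟩ := h.inv
  have hWH : W * H = 1 := mul_eq_one_comm.1 hHW
  have hSx : (Polynomial.X * T).eval x₀ ≠ 0 := by
    rw [Polynomial.eval_mul, Polynomial.eval_X]
    exact mul_ne_zero hx hTx
  have hS0 : coeff 0 (tr x₀ (Polynomial.X * T)) ≠ 0 := by rwa [coeff_zero_tr]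
  have hSne : tr x₀ (Polynomial.X * T) ≠ 0 := by
    intro h0
    rw [h0, map_zero] at hS0
    exact hS0 rfl
  -- the solution and the solution of the dual system
  obtain ⟨Z, hZ0, hZ⟩ := exists_sol hS0 (fun l j => tr x₀ (A l j))
  obtain ⟨Y, hY0, hY⟩ := exists_sol hS0 (fun l j => tr x₀ (-(A j l)))
  have hZG : ∀ i j, GFn (Z i j) := sol_gfn h.nil (H := H) (W := W)
    (fun i j => by
      have := congrFun (congrFun hWH i) j
      rw [Matrix.mul_apply, Matrix.one_apply] at this
      exact this) h.gfun hW hode hSx hZ0 hZ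
  have hNt : (-Nᵀ) ^ n = 0 := by
    rw [neg_pow, ← Matrix.transpose_pow, h.nil, Matrix.transpose_zero, mul_zero]
  have hYG : ∀ i j, GFn (Y i j) := sol_gfn hNt (H := Wᵀ) (W := Hᵀ)
    (fun i j => by
      have := congrFun (congrFun hWH j) i
      rw [Matrix.mul_apply, Matrix.one_apply] at this
      calc ∑ l, Hᵀ i l * Wᵀ l j = ∑ l, W j l * H l i :=
            Finset.sum_congr rfl fun l _ => by
              rw [Matrix.transpose_apply, Matrix.transpose_apply, mul_comm]
        _ = _ := by rw [this]; simp only [eq_comm])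
    (fun i j => hW j i) (fun i j => h.gfun j i) (A := fun l j => -(A j l)) (T := T)
    (inv_ode hHW hode) hSx hY0 hY
  -- the product
  have hZY : Matrix.of Z * (Matrix.of Y)ᵀ = 1 := by
    ext1 i j
    have hd : PowerSeries.derivative L (∑ l, Z i l * Y j l) = 0 := by
      have h1 : tr x₀ (Polynomial.X * T) * PowerSeries.derivative L (∑ l, Z i l * Y j l) = 0 := by
        rw [map_sum, Finset.mul_sum]
        have h2 : ∀ l, tr x₀ (Polynomial.X * T) * PowerSeries.derivative L (Z i l * Y j l) =
            (∑ k, Z i k * tr x₀ (A k l) * Y j l) - ∑ k, Z i l * tr x₀ (A l k) * Y j k := by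
          intro l
          rw [Derivation.leibniz]
          simp only [smul_eq_mul]
          have h3 : tr x₀ (Polynomial.X * T) * (Z i l * PowerSeries.derivative L (Y j l) +
              Y j l * PowerSeries.derivative L (Z i l)) =
              Z i l * (tr x₀ (Polynomial.X * T) * PowerSeries.derivative L (Y j l)) +
              (tr x₀ (Polynomial.X * T) * PowerSeries.derivative L (Z i l)) * Y j l := by ring
          rw [h3, hZ, hY, Finset.sum_mul, Finset.mul_sum, add_comm, sub_eq_add_neg,
            ← Finset.sum_neg_distrib]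
          congr 1
          refine Finset.sum_congr rfl fun k _ => ?_
          have h4 : tr x₀ (-(A l k)) = -tr x₀ (A l k) := by
            unfold tr
            rw [Polynomial.neg_comp, Polynomial.coe_neg]
          rw [h4]
          ring
        rw [Finset.sum_congr rfl fun l _ => h2 l, Finset.sum_sub_distrib, Finset.sum_comm, sub_self]
      exact (mul_eq_zero.1 h1).resolve_left hSne
    have h5 := eq_of_derivative_zero hd
    rw [Matrix.mul_apply]
    simp only [Matrix.of_apply, Matrix.transpose_apply]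
    rw [h5, map_sum]
    have h6 : ∀ l, coeff 0 (Z i l * Y j l) = (if i = l then 1 else 0) * (if j = l then 1 else 0) := by
      intro l
      rw [coeff_zero_eq_constantCoeff_apply, map_mul, ← coeff_zero_eq_constantCoeff_apply,
        ← coeff_zero_eq_constantCoeff_apply, hZ0, hY0]
    rw [Finset.sum_congr rfl fun l _ => h6 l, Matrix.one_apply]
    by_cases hij : i = j
    · subst hij
      simp
    · rw [if_neg hij]
      have h7 : ∀ l, ((if i = l then 1 else 0) * (if j = l then 1 else 0) : L) = 0 := by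
        intro l
        by_cases h8 : i = l
        · rw [if_neg (fun h9 : j = l => hij (h8.trans h9.symm)), mul_zero]
        · rw [if_neg h8, zero_mul]
      simp [h7]
  refine ⟨Matrix.of Z, ⟨?_, hZ0, ?_, hZG, ⟨(Matrix.of Y)ᵀ, hZY, fun i j => hYG j i⟩⟩, ?_⟩
  · rcases Nat.eq_zero_or_pos n with h0 | h0
    · subst h0
      exact Subsingleton.elim _ _
    · exact zero_pow h0.ne'
  · refine ⟨(Polynomial.X * T).comp (Polynomial.X + Polynomial.C x₀),
      fun l j => Polynomial.X * (A l j).comp (Polynomial.X + Polynomial.C x₀), ?_, fun i j => ?_⟩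
    · rw [Polynomial.coeff_zero_eq_eval_zero, Polynomial.eval_comp]
      simpa using hSx
    · have h1 := hZ i j
      have h2 : ∑ l, C ((0 : Matrix (Fin n) (Fin n) ℤ) i l : L) * (Matrix.of Z) l j = 0 :=
        Finset.sum_eq_zero fun l _ => by simp
      rw [h2, add_zero]
      have h3 : ∑ l, (Matrix.of Z) i l *
          ((Polynomial.X * (A l j).comp (Polynomial.X + Polynomial.C x₀) : Polynomial L) : L⟦X⟧) =
          X * ∑ l, Z i l * tr x₀ (A l j) := by
        rw [Finset.mul_sum]
        refine Finset.sum_congr rfl fun l _ => ?_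
        rw [Polynomial.coe_mul, Polynomial.coe_X]
        unfold tr
        simp only [Matrix.of_apply]
        ring
      rw [h3, ← h1]
      unfold tr
      simp only [Matrix.of_apply]
      ring
  · intro i j
    have h1 := hZ i j
    have h2 : ((T.comp (Polynomial.X + Polynomial.C x₀)) *
        (Polynomial.X + Polynomial.C x₀) : Polynomial L) =
        (Polynomial.X * T).comp (Polynomial.X + Polynomial.C x₀) := by
      rw [Polynomial.mul_comp, Polynomial.X_comp, mul_comm]
    rw [h2]
    exact h1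

end Pool.Agent.NH19.CC
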