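import Pool.Agent.NH19.CC.Pol

/-!
# Change of centre: the solution at the new centre
-/

set_option autoImplicit false

open PowerSeries Finset.HasAntidiagonal

namespace Pool.Agent.NH19.CC

open Pool.Agent.Y113 Pool.Agent.Y921.DB

variable {L : Type} [Field L] [NumberField L] {n : ℕ}

/-- the coefficients of the formal solution of `Z' = Z M` -/
noncomputable def zc (M : Fin n → Fin n → L⟦X⟧) : ℕ → Fin n → Fin n → L
  | 0 => fun i j => if i = j then 1 else 0
  | (m + 1) => fun i j =>
      ((m : L) + 1)⁻¹ * ∑ a : Fin (m + 1), ∑ l, zc M a i l * coeff (m - a) (M l j)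
  termination_by m => m
  decreasing_by exact a.2

/-- existence of the formal solution -/
theorem exists_sol {S : L⟦X⟧} (hS : coeff 0 S ≠ 0) (A : Fin n → Fin n → L⟦X⟧) :
    ∃ Z : Fin n → Fin n → L⟦X⟧, (∀ i j, coeff 0 (Z i j) = if i = j then 1 else 0) ∧
      ∀ i j, S * PowerSeries.derivative L (Z i j) = ∑ l, Z i l * A l j := by
  obtain ⟨R, hR⟩ : ∃ R : L⟦X⟧, S * R = 1 := by
    refine ⟨S⁻¹, PowerSeries.mul_inv_cancel S ?_⟩
    rwa [coeff_zero_eq_constantCoeff_apply] at hS
  obtain ⟨M, hM⟩ : ∃ M : Fin n → Fin n → L⟦X⟧, ∀ i j, M i j = R * A i j := ⟨_, fun _ _ => rfl⟩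
  refine ⟨fun i j => PowerSeries.mk fun m => zc M m i j, fun i j => ?_, fun i j => ?_⟩
  · rw [coeff_mk, zc]
  · have key : PowerSeries.derivative L (PowerSeries.mk fun m => zc M m i j) =
        ∑ l, (PowerSeries.mk fun m => zc M m i l) * M l j := by
      ext m
      rw [PowerSeries.coeff_derivative, coeff_mk, zc, map_sum]
      have h1 : ((m : L) + 1) ≠ 0 := by exact_mod_cast Nat.succ_ne_zero m
      have h2 : ∀ l, coeff m ((PowerSeries.mk fun m => zc M m i l) * M l j) =
          ∑ a : Fin (m + 1), zc M a i l * coeff (m - a) (M l j) := by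
        intro l
        rw [coeff_mul, Finset.Nat.sum_antidiagonal_eq_sum_range_succ_mk, Finset.sum_range]
        simp only [coeff_mk]
      rw [Finset.sum_congr rfl fun l _ => h2 l, Finset.sum_comm]
      field_simp
    rw [key, Finset.mul_sum]
    refine Finset.sum_congr rfl fun l _ => ?_
    rw [hM]
    calc S * ((PowerSeries.mk fun m => zc M m i l) * (R * A l j))
        = (S * R) * ((PowerSeries.mk fun m => zc M m i l) * A l j) := by ring
      _ = _ := by rw [hR, one_mul]

omit [NumberField L] in
lemma coeff_zero_iterate (s : ℕ) (f : L⟦X⟧) :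
    coeff 0 ((PowerSeries.derivative L)^[s] f) = ((s.factorial : ℕ) : L) * coeff s f := by
  have key : ∀ s m, coeff m ((PowerSeries.derivative L)^[s] f) * ((m.factorial : ℕ) : L) =
      (((m + s).factorial : ℕ) : L) * coeff (m + s) f := by
    intro s
    induction s with
    | zero => intro m; simp [mul_comm]
    | succ s ih =>
      intro m
      rw [Function.iterate_succ_apply', PowerSeries.coeff_derivative]
      have h1 := ih (m + 1)
      have e : m + 1 + s = m + (s + 1) := by ring
      rw [e] at h1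
      rw [← h1, Nat.factorial_succ]
      push_cast
      ring
  have := key s 0
  simpa using this

/-- translation of a polynomial -/
noncomputable def tr (x₀ : L) (p : Polynomial L) : L⟦X⟧ :=
  ((p.comp (Polynomial.X + Polynomial.C x₀) : Polynomial L) : L⟦X⟧)

omit [NumberField L] in
lemma tr_add (x₀ : L) (p q : Polynomial L) : tr x₀ (p + q) = tr x₀ p + tr x₀ q := by
  unfold tr
  rw [Polynomial.add_comp, Polynomial.coe_add]

omit [NumberField L] in
lemma tr_sub (x₀ : L) (p q : Polynomial L) : tr x₀ (p - q) = tr x₀ p - tr x₀ q := by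
  unfold tr
  rw [Polynomial.sub_comp, Polynomial.coe_sub]

omit [NumberField L] in
lemma tr_mul (x₀ : L) (p q : Polynomial L) : tr x₀ (p * q) = tr x₀ p * tr x₀ q := by
  unfold tr
  rw [Polynomial.mul_comp, Polynomial.coe_mul]

omit [NumberField L] in
lemma tr_sum (x₀ : L) {ι : Type*} (s : Finset ι) (p : ι → Polynomial L) :
    tr x₀ (∑ i ∈ s, p i) = ∑ i ∈ s, tr x₀ (p i) := by
  unfold tr
  rw [Polynomial.sum_comp, coe_sum']

omit [NumberField L] in
lemma tr_nat (x₀ : L) (s : ℕ) : tr x₀ (s : Polynomial L) = C (s : L) := by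
  unfold tr
  rw [Polynomial.natCast_comp, coe_nat']

omit [NumberField L] in
lemma tr_derivative (x₀ : L) (p : Polynomial L) :
    tr x₀ (Polynomial.derivative p) = PowerSeries.derivative L (tr x₀ p) := by
  unfold tr
  rw [PowerSeries.derivative_coe, Polynomial.derivative_comp]
  simp

omit [NumberField L] in
lemma coeff_zero_tr (x₀ : L) (p : Polynomial L) : coeff 0 (tr x₀ p) = p.eval x₀ := by
  unfold tr
  rw [Polynomial.coeff_coe, Polynomial.coeff_zero_eq_eval_zero, Polynomial.eval_comp]
  simp

omit [NumberField L] in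
/-- the higher derivatives of the solution at the new centre -/
theorem sol_iterate (x₀ : L) {S : Polynomial L} {A : Fin n → Fin n → Polynomial L}
    {Z : Fin n → Fin n → L⟦X⟧}
    (hZ : ∀ i j, tr x₀ S * PowerSeries.derivative L (Z i j) = ∑ l, Z i l * tr x₀ (A l j)) (s : ℕ) :
    ∀ i j, tr x₀ S ^ s * (PowerSeries.derivative L)^[s] (Z i j) =
      ∑ l, Z i l * tr x₀ (Pi S A s l j) := by
  induction s with
  | zero =>
    intro i j
    simp only [Pi, pow_zero, one_mul, Function.iterate_zero, id]
    rw [Finset.sum_eq_single j]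
    · rw [if_pos rfl]
      unfold tr
      simp
    · intro l _ hl
      rw [if_neg hl]
      unfold tr
      simp
    · intro h
      exact absurd (Finset.mem_univ _) h
  | succ s ih =>
    intro i j
    rw [Function.iterate_succ_apply']
    obtain ⟨F, hF⟩ : ∃ F, F = (PowerSeries.derivative L)^[s] (Z i j) := ⟨_, rfl⟩
    have h1 := ih i j
    rw [← hF] at h1 ⊢
    have h2 := congrArg (PowerSeries.derivative L) h1
    rw [Derivation.leibniz, Derivation.leibniz_pow, map_sum] at h2
    simp only [smul_eq_mul, nsmul_eq_mul, Derivation.leibniz] at h2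
    have hc : (s : L⟦X⟧) = C (s : L) := by simp
    rw [hc] at h2
    have h3 : C (s : L) * PowerSeries.derivative L (tr x₀ S) * (tr x₀ S ^ s * F) =
        tr x₀ S * (F * (C (s : L) * (tr x₀ S ^ (s - 1) * PowerSeries.derivative L (tr x₀ S)))) := by
      rcases s with _ | s
      · simp
      · simp only [Nat.add_sub_cancel]
        ring
    have h4 : ∑ l, Z i l * tr x₀ (Pi S A (s + 1) l j) =
        ∑ l, (tr x₀ S * PowerSeries.derivative L (Z i l)) * tr x₀ (Pi S A s l j) +
        tr x₀ S * ∑ l, Z i l * PowerSeries.derivative L (tr x₀ (Pi S A s l j)) -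
        C (s : L) * PowerSeries.derivative L (tr x₀ S) * ∑ l, Z i l * tr x₀ (Pi S A s l j) := by
      have e1 : ∀ l, Z i l * tr x₀ (Pi S A (s + 1) l j) =
          ∑ k, Z i l * tr x₀ (A l k) * tr x₀ (Pi S A s k j) +
          tr x₀ S * (Z i l * PowerSeries.derivative L (tr x₀ (Pi S A s l j))) -
          C (s : L) * PowerSeries.derivative L (tr x₀ S) * (Z i l * tr x₀ (Pi S A s l j)) := by
        intro l
        simp only [Pi]
        rw [tr_sub, tr_add, tr_sum, tr_mul, tr_mul, tr_mul, tr_nat, tr_derivative, tr_derivative]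
        simp only [tr_mul]
        have e3 : (∑ k, Z i l * tr x₀ (A l k) * tr x₀ (Pi S A s k j)) =
            Z i l * ∑ k, tr x₀ (A l k) * tr x₀ (Pi S A s k j) := by
          rw [Finset.mul_sum]
          exact Finset.sum_congr rfl fun k _ => by ring
        rw [e3]
        ring
      rw [Finset.sum_congr rfl fun l _ => e1 l, Finset.sum_sub_distrib, Finset.sum_add_distrib,
        ← Finset.mul_sum, ← Finset.mul_sum, Finset.sum_comm]
      congr 2
      refine Finset.sum_congr rfl fun k _ => ?_
      rw [← Finset.sum_mul, hZ]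
    rw [h4, ← h1]
    rw [Finset.sum_add_distrib] at h2
    have h5 : ∑ l, (tr x₀ S * PowerSeries.derivative L (Z i l)) * tr x₀ (Pi S A s l j) =
        tr x₀ S * ∑ l, tr x₀ (Pi S A s l j) * PowerSeries.derivative L (Z i l) := by
      rw [Finset.mul_sum]
      exact Finset.sum_congr rfl fun l _ => by ring
    rw [h5]
    linear_combination (tr x₀ S) * h2 + h3

omit [NumberField L] in
lemma coeff_sol (x₀ : L) {S : Polynomial L} {A : Fin n → Fin n → Polynomial L}
    {Z : Fin n → Fin n → L⟦X⟧} (hZ0 : ∀ i j, coeff 0 (Z i j) = if i = j then 1 else 0)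
    (hZ : ∀ i j, tr x₀ S * PowerSeries.derivative L (Z i j) = ∑ l, Z i l * tr x₀ (A l j))
    (s : ℕ) (i j : Fin n) :
    S.eval x₀ ^ s * (((s.factorial : ℕ) : L) * coeff s (Z i j)) = (Pi S A s i j).eval x₀ := by
  have h1 := congrArg (coeff 0) (sol_iterate x₀ hZ s i j)
  rw [map_sum, coeff_zero_eq_constantCoeff_apply, map_mul, map_pow,
    ← coeff_zero_eq_constantCoeff_apply, ← coeff_zero_eq_constantCoeff_apply, coeff_zero_tr,
    coeff_zero_iterate] at h1
  rw [h1, Finset.sum_eq_single i]
  · rw [coeff_zero_eq_constantCoeff_apply, map_mul, ← coeff_zero_eq_constantCoeff_apply,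
      ← coeff_zero_eq_constantCoeff_apply, coeff_zero_tr, hZ0, if_pos rfl, one_mul]
  · intro l _ hl
    rw [coeff_zero_eq_constantCoeff_apply, map_mul, ← coeff_zero_eq_constantCoeff_apply,
      hZ0, if_neg hl.symm, zero_mul]
  · intro h
    exact absurd (Finset.mem_univ _) h

end Pool.Agent.NH19.CC
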